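import Pool.Agent.Helper19.WZ.Smooth
import Pool.Agent.Helper92.GB.Perron
import Pool.Agent.Helper55.CM.Defs

/-!
# Twisted sums of the Moebius function in a half plane without zeros

`tw_of_zf`: if no Dirichlet L-function vanishes in `Re s > a`, then
`∑_{n ≤ N} μ(n) χ(n) n^{it} ≪ (q (1 + |t|) N)^ε N^a`, for all characters (principal ones included).
-/

set_option autoImplicit false

namespace Pool.Agent.Helper9.TWZ

open Complex MeasureTheory Set Filter Topology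
open Pool.Helper19.WZ (ZF mc mc_zero norm_mc_le exists_D int_two)
open Pool.Agent.Helper92.GB (tw npi)
open Pool.Agent.Helper55.CM (Tw mu)

/-- the kernel -/
noncomputable def K (N : ℕ) (s : ℂ) : ℂ :=
  (((((N:ℝ) + 1 : ℝ)) : ℂ) ^ (s + 1) - (((N:ℝ)) : ℂ) ^ (s + 1)) / (s * (s + 1))

lemma K_bound {σ v e : ℝ} (hσ : 1 / 2 ≤ σ) (he0 : 0 ≤ e) (he1 : e ≤ 1) {N : ℕ} (hN : 1 ≤ N) :
    ‖K N ((σ : ℂ) + v * I)‖ ≤ 18 * ((N:ℝ) + 1) ^ (σ + e) * (1 + |v|) ^ (-(1 + e)) :=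
  Pool.Agent.Helper92.GB.Kern.kernel_bound hσ he0 he1 hN

lemma K_bound' {s : ℂ} {e : ℝ} (hσ : 1 / 2 ≤ s.re) (he0 : 0 ≤ e) (he1 : e ≤ 1) {N : ℕ} (hN : 1 ≤ N) :
    ‖K N s‖ ≤ 18 * ((N:ℝ) + 1) ^ (s.re + e) * (1 + |s.im|) ^ (-(1 + e)) := by
  have h := K_bound (v := s.im) hσ he0 he1 hN
  rwa [Complex.re_add_im] at h

lemma K_diff {N : ℕ} (hN : 1 ≤ N) {s : ℂ} (hs : 0 < s.re) : DifferentiableAt ℂ (K N) s := by
  have h1 : (((((N:ℝ) + 1 : ℝ)) : ℂ)) ≠ 0 := by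
    have : (0 : ℝ) < (N : ℝ) + 1 := by positivity
    exact_mod_cast this.ne'
  have h2 : ((((N:ℝ)) : ℂ)) ≠ 0 := by
    have : (0 : ℝ) < (N : ℝ) := by exact_mod_cast hN
    exact_mod_cast this.ne'
  have h3 : s * (s + 1) ≠ 0 := by
    apply mul_ne_zero
    · intro h
      rw [h] at hs
      simp at hs
    · intro h
      have := congrArg Complex.re h
      simp at this
      linarith
  have e1 : DifferentiableAt ℂ (fun s : ℂ => (((((N:ℝ) + 1 : ℝ)) : ℂ)) ^ (s + 1)) s :=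
    (differentiableAt_id.add_const 1).const_cpow (Or.inl h1)
  have e2 : DifferentiableAt ℂ (fun s : ℂ => ((((N:ℝ)) : ℂ)) ^ (s + 1)) s :=
    (differentiableAt_id.add_const 1).const_cpow (Or.inl h2)
  have e3 : DifferentiableAt ℂ (fun s : ℂ => s * (s + 1)) s := by fun_prop
  exact (e1.sub e2).div e3 h3

/-- the twisted sum as an integral -/
lemma tw_integral {q : ℕ} (χ : DirichletCharacter ℂ q) (t : ℝ) {N : ℕ} (hN : 1 ≤ N) {D : ℂ → ℂ}
    (hD : ∀ s : ℂ, 1 < s.re → D s = LSeries (mc χ) s) :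
    ∫ v : ℝ, D (((2 : ℝ) : ℂ) + v * I - (t : ℂ) * I) * K N (((2 : ℝ) : ℂ) + v * I) = 2 * Real.pi * tw mu χ t N := by
  obtain ⟨F, hF⟩ : ∃ F : ℕ → ℝ → ℂ, F = fun (m : ℕ) (y : ℝ) => mc χ m * npi m t *
    ((m : ℂ) ^ (-(((2 : ℝ) : ℂ) + (y : ℂ) * I)) * (((((N:ℝ) + 1 : ℝ)) : ℂ) ^ ((((2 : ℝ) : ℂ) + (y : ℂ) * I) + 1)
        - (((N:ℝ)) : ℂ) ^ ((((2 : ℝ) : ℂ) + (y : ℂ) * I) + 1))
      / ((((2 : ℝ) : ℂ) + (y : ℂ) * I) * (((2 : ℝ) : ℂ) + (y : ℂ) * I + 1))) := ⟨_, rfl⟩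
  have hF0 : ∀ y, F 0 y = 0 := by
    intro y
    rw [hF]
    simp [mc_zero]
  have hnpi : ∀ m : ℕ, 0 < m → ‖npi m t‖ = 1 := by
    intro m hm
    unfold npi
    rw [Complex.norm_natCast_cpow_of_pos hm]
    simp
  have hnorm : ∀ m : ℕ, 0 < m → ∀ y : ℝ, ‖F m y‖ ≤ (m : ℝ) ^ (-2 : ℝ) * (18 * ((N:ℝ) + 1) ^ (3 : ℝ) * (1 + |y|) ^ (-2 : ℝ)) := by
    intro m hm y
    have e2 : ‖(m : ℂ) ^ (-(((2 : ℝ) : ℂ) + (y : ℂ) * I))‖ = (m : ℝ) ^ (-2 : ℝ) := by
      rw [Complex.norm_natCast_cpow_of_pos hm]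
      simp
    have e3 := K_bound (σ := 2) (v := y) (e := 1) (by norm_num) (by norm_num) (by norm_num) hN
    have e3' : ‖K N (((2 : ℝ) : ℂ) + (y : ℂ) * I)‖ ≤ 18 * ((N:ℝ) + 1) ^ (3 : ℝ) * (1 + |y|) ^ (-2 : ℝ) := by
      have f1 : (2 : ℝ) + 1 = 3 := by norm_num
      have f2 : -((1 : ℝ) + 1) = -2 := by norm_num
      rw [f1, f2] at e3
      exact e3
    have e4 := norm_mc_le χ m
    rw [hF]
    simp only
    rw [mul_div_assoc, norm_mul, norm_mul, norm_mul, e2, hnpi m hm, mul_one]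
    have e5 : 0 ≤ (m : ℝ) ^ (-2 : ℝ) * ‖K N (((2 : ℝ) : ℂ) + (y : ℂ) * I)‖ := by positivity
    calc ‖mc χ m‖ * ((m : ℝ) ^ (-2 : ℝ) * ‖K N (((2 : ℝ) : ℂ) + (y : ℂ) * I)‖) ≤
          1 * ((m : ℝ) ^ (-2 : ℝ) * ‖K N (((2 : ℝ) : ℂ) + (y : ℂ) * I)‖) := mul_le_mul_of_nonneg_right e4 e5
      _ = (m : ℝ) ^ (-2 : ℝ) * ‖K N (((2 : ℝ) : ℂ) + (y : ℂ) * I)‖ := one_mul _
      _ ≤ _ := by gcongr
  have hFi : ∀ m : ℕ, Integrable (F m) := by
    intro m
    rcases Nat.eq_zero_or_pos m with h0 | hm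
    · rw [h0]
      have : F 0 = fun _ => 0 := funext hF0
      rw [this]
      exact integrable_zero _ _ _
    · rw [hF]
      exact (Pool.Agent.Helper92.GB.Kern.kernel_diff_integrable (σ := 2) (by norm_num) hN hm).const_mul _
  have hsum : Summable (fun m : ℕ => ∫ y, ‖F m y‖) := by
    have h1 : Summable (fun m : ℕ => (m : ℝ) ^ (-2 : ℝ) * (∫ y : ℝ, 18 * ((N:ℝ) + 1) ^ (3 : ℝ) * (1 + |y|) ^ (-2 : ℝ))) :=
      (Real.summable_nat_rpow.2 (by norm_num)).mul_right _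
    refine Summable.of_nonneg_of_le (fun m => integral_nonneg fun y => norm_nonneg _) (fun m => ?_) h1
    rcases Nat.eq_zero_or_pos m with h0 | hm
    · rw [h0]
      simp only [hF0, norm_zero, integral_zero]
      have : 0 ≤ ∫ y : ℝ, 18 * ((N:ℝ) + 1) ^ (3 : ℝ) * (1 + |y|) ^ (-2 : ℝ) := integral_nonneg fun y => by positivity
      positivity
    · refine (integral_mono (hFi m).norm ((int_two.const_mul _).const_mul _) (hnorm m hm)).trans (le_of_eq ?_)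
      rw [integral_const_mul]
  have key := hasSum_integral_of_summable_integral_norm hFi hsum
  have e1 : (fun m : ℕ => ∫ y, F m y) = fun m : ℕ => if m ∈ Finset.Icc 1 N then mc χ m * npi m t * (2 * (Real.pi : ℂ)) else 0 := by
    ext m
    rcases Nat.eq_zero_or_pos m with h0 | hm
    · rw [h0]
      simp [hF0]
    · rw [hF]
      simp only
      rw [integral_const_mul, Pool.Agent.Helper92.GB.Kern.kernel_diff (σ := 2) (by norm_num) hN hm]
      by_cases h : m ≤ N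
      · rw [if_pos h, if_pos (Finset.mem_Icc.2 ⟨hm, h⟩)]
      · rw [if_neg h, if_neg (fun h' => h (Finset.mem_Icc.1 h').2), mul_zero]
  have e3 : (∫ y, ∑' m : ℕ, F m y) = ∫ v : ℝ, D (((2 : ℝ) : ℂ) + v * I - (t : ℂ) * I) * K N (((2 : ℝ) : ℂ) + v * I) := by
    congr 1
    ext y
    have hre : 1 < (((2 : ℝ) : ℂ) + (y : ℂ) * I - (t : ℂ) * I).re := by simp
    rw [hD _ hre, LSeries, ← tsum_mul_right]
    congr 1
    ext m
    rcases Nat.eq_zero_or_pos m with h0 | hm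
    · rw [h0, hF0, LSeries.term_zero, zero_mul]
    · have hm0 : (m : ℂ) ≠ 0 := by exact_mod_cast hm.ne'
      rw [LSeries.term_of_ne_zero (by omega), hF]
      simp only
      have e4 : (m : ℂ) ^ (((2 : ℝ) : ℂ) + (y : ℂ) * I - (t : ℂ) * I) =
          (m : ℂ) ^ (((2 : ℝ) : ℂ) + (y : ℂ) * I) / npi m t := by
        unfold npi
        exact Complex.cpow_sub _ _ hm0
      have e5 : npi m t ≠ 0 := by
        intro h
        have := hnpi m hm
        rw [h, norm_zero] at this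
        norm_num at this
      have e6 : (m : ℂ) ^ (((2 : ℝ) : ℂ) + (y : ℂ) * I) ≠ 0 := by
        rw [Complex.cpow_def_of_ne_zero hm0]
        exact Complex.exp_ne_zero _
      rw [e4, Complex.cpow_neg, K, mul_div_assoc, div_div_eq_mul_div, div_eq_mul_inv]
      ring
  rw [e1, e3] at key
  have key2 : HasSum (fun m : ℕ => if m ∈ Finset.Icc 1 N then mc χ m * npi m t * (2 * (Real.pi : ℂ)) else 0)
      (∑ m ∈ Finset.Icc 1 N, if m ∈ Finset.Icc 1 N then mc χ m * npi m t * (2 * (Real.pi : ℂ)) else 0) :=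
    hasSum_sum_of_ne_finset_zero (fun m hm => if_neg hm)
  have key3 := key.unique key2
  rw [key3, tw, Finset.mul_sum]
  refine Finset.sum_congr rfl fun m hm => ?_
  rw [if_pos hm]
  unfold mc mu
  ring

lemma int_pow {η : ℝ} (hη : 0 < η) : Integrable (fun y : ℝ => (1 + |y|) ^ (-(1 + η))) := by
  have := integrable_one_add_norm (E := ℝ) (μ := volume) (r := 1 + η) (by simp; exact hη)
  simpa [Real.norm_eq_abs] using this

/-- The bound with explicit parameters. -/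
lemma tw_aux {a η : ℝ} (ha0 : 1 / 2 ≤ a) (ha1 : a < 1) (hη : 0 < η) (hη1 : η ≤ 1 / 4) (hZ : ZF a) :
    ∃ C : ℝ, 0 < C ∧ ∀ (q : ℕ) [NeZero q] (χ : DirichletCharacter ℂ q) (t : ℝ) (N : ℕ), 1 ≤ N →
      ‖tw mu χ t N‖ ≤ C * ((q : ℝ) * (1 + |t|)) ^ η * (N : ℝ) ^ (a + 3 * η) := by
  obtain ⟨C1, hC1, hDD⟩ := exists_D (ε := η) (δ := η) ha0 ha1 hη (by linarith) hη hZ
  obtain ⟨J, hJ⟩ : ∃ J : ℝ, J = ∫ y : ℝ, (1 + |y|) ^ (-(1 + η)) := ⟨_, rfl⟩
  have hJ0 : 0 ≤ J := by rw [hJ]; exact integral_nonneg fun y => by positivity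
  refine ⟨18 * C1 * 4 * (J + 1), by positivity, fun q _ χ t N hN => ?_⟩
  obtain ⟨D, hD1, hD2, hD3⟩ := hDD q χ
  have hq : (1 : ℝ) ≤ q := by exact_mod_cast NeZero.one_le
  have hN1 : (1 : ℝ) ≤ N := by exact_mod_cast hN
  have hS := tw_integral χ t hN hD2
  obtain ⟨w, hw⟩ : ∃ w : ℂ, w = (t : ℂ) * I := ⟨_, rfl⟩
  have hwre : w.re = 0 := by rw [hw]; simp
  have hwim : w.im = t := by rw [hw]; simp
  obtain ⟨g, hg⟩ : ∃ g : ℂ → ℂ, g = fun s => D (s - w) * K N s := ⟨_, rfl⟩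
  -- the bound in the strip
  have hgb : ∀ s : ℂ, a + η ≤ s.re → s.re ≤ 2 →
      ‖g s‖ ≤ 18 * C1 * ((q : ℝ) * (1 + |t|)) ^ η * ((N:ℝ) + 1) ^ (s.re + 2 * η) * (1 + |s.im|) ^ (-(1 + η)) := by
    intro s hs1 hs2
    have e1 := K_bound' (s := s) (e := 2 * η) (by linarith) (by linarith) (by linarith) hN
    have e2 := hD3 (s - w) (by rw [Complex.sub_re, hwre]; linarith) (by rw [Complex.sub_re, hwre]; linarith)
    rw [Complex.sub_im, hwim] at e2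
    have hy : 0 ≤ |s.im| := abs_nonneg _
    have ht : 0 ≤ |t| := abs_nonneg _
    have e4 : ((q : ℝ) * (1 + |s.im - t|)) ^ η ≤ ((q : ℝ) * (1 + |t|)) ^ η * (1 + |s.im|) ^ η := by
      have f1 : (q : ℝ) * (1 + |s.im - t|) ≤ ((q : ℝ) * (1 + |t|)) * (1 + |s.im|) := by
        have f2 : |s.im - t| ≤ |s.im| + |t| := abs_sub _ _
        have f3 : 0 ≤ |s.im| * |t| := by positivity
        have f4 : 1 + |s.im - t| ≤ (1 + |t|) * (1 + |s.im|) := by nlinarith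
        calc (q : ℝ) * (1 + |s.im - t|) ≤ q * ((1 + |t|) * (1 + |s.im|)) := mul_le_mul_of_nonneg_left f4 (by linarith)
          _ = _ := by ring
      calc ((q : ℝ) * (1 + |s.im - t|)) ^ η ≤ (((q : ℝ) * (1 + |t|)) * (1 + |s.im|)) ^ η :=
            Real.rpow_le_rpow (by positivity) f1 hη.le
        _ = ((q : ℝ) * (1 + |t|)) ^ η * (1 + |s.im|) ^ η := Real.mul_rpow (by positivity) (by positivity)
    have e5 : (1 + |s.im|) ^ η * (1 + |s.im|) ^ (-(1 + 2 * η)) = (1 + |s.im|) ^ (-(1 + η)) := by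
      rw [← Real.rpow_add (by positivity)]
      congr 1
      ring
    rw [hg]
    simp only
    rw [norm_mul]
    calc ‖D (s - w)‖ * ‖K N s‖ ≤ (C1 * (((q : ℝ) * (1 + |t|)) ^ η * (1 + |s.im|) ^ η)) *
          (18 * ((N:ℝ) + 1) ^ (s.re + 2 * η) * (1 + |s.im|) ^ (-(1 + 2 * η))) := by
          gcongr
          exact e2.trans (mul_le_mul_of_nonneg_left e4 hC1.le)
      _ = 18 * C1 * ((q : ℝ) * (1 + |t|)) ^ η * ((N:ℝ) + 1) ^ (s.re + 2 * η) *
          ((1 + |s.im|) ^ η * (1 + |s.im|) ^ (-(1 + 2 * η))) := by ring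
      _ = _ := by rw [e5]
  have hgd : ∀ s : ℂ, a + η ≤ s.re → s.re ≤ 2 → DifferentiableAt ℂ g s := by
    intro s hs1 hs2
    have e3 : DifferentiableAt ℂ (fun s : ℂ => D (s - w)) s := by
      refine DifferentiableAt.comp (g := D) s (hD1 _ ?_) (by fun_prop)
      rw [Complex.sub_re, hwre]
      linarith
    rw [hg]
    exact e3.mul (K_diff hN (by linarith))
  have hgi : ∀ σ : ℝ, a + η ≤ σ → σ ≤ 2 → Integrable (fun y : ℝ => g ((σ : ℂ) + (y : ℂ) * I)) := by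
    intro σ h1 h2
    refine ((int_pow hη).const_mul (18 * C1 * ((q : ℝ) * (1 + |t|)) ^ η * ((N:ℝ) + 1) ^ (σ + 2 * η))).mono' ?_ ?_
    · apply Continuous.aestronglyMeasurable
      rw [continuous_iff_continuousAt]
      intro y
      exact ContinuousAt.comp (g := g) (hgd _ (by simpa using h1) (by simpa using h2)).continuousAt (by fun_prop)
    · filter_upwards with y
      have := hgb ((σ : ℂ) + (y : ℂ) * I) (by simpa using h1) (by simpa using h2)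
      simpa using this
  have hac : a + η ≤ 2 := by linarith
  have hshift := Pool.Agent.Helper83.BDF.shift g hac hgd
    (fun T => 18 * C1 * ((q : ℝ) * (1 + |t|)) ^ η * ((N:ℝ) + 1) ^ (2 + 2 * η) * (1 + T) ^ (-(1 + η))) (by
      have e1 : Tendsto (fun T : ℝ => (1 + T) ^ (-(1 + η))) atTop (𝓝 0) :=
        (tendsto_rpow_neg_atTop (y := 1 + η) (by linarith)).comp (tendsto_atTop_add_const_left _ 1 tendsto_id)
      simpa using e1.const_mul (18 * C1 * ((q : ℝ) * (1 + |t|)) ^ η * ((N:ℝ) + 1) ^ (2 + 2 * η))) (by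
      filter_upwards with T s hs1 hs2 hT
      refine (hgb s hs1 hs2).trans ?_
      rw [hT]
      have e1 : ((N:ℝ) + 1) ^ (s.re + 2 * η) ≤ ((N:ℝ) + 1) ^ (2 + 2 * η) :=
        Real.rpow_le_rpow_of_exponent_le (by linarith) (by linarith)
      have e2 : 0 ≤ (1 + T) ^ (-(1 + η)) := by
        rw [← hT]
        positivity
      gcongr) (hgi _ le_rfl hac) (hgi _ hac le_rfl)
  have hge : (∫ v : ℝ, D (((2 : ℝ) : ℂ) + v * I - (t : ℂ) * I) * K N (((2 : ℝ) : ℂ) + v * I)) =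
      ∫ y : ℝ, g (((a + η : ℝ) : ℂ) + (y : ℂ) * I) := by
    rw [hshift, hg, hw]
  rw [hge] at hS
  have h1 : ‖∫ y : ℝ, g (((a + η : ℝ) : ℂ) + (y : ℂ) * I)‖ ≤
      18 * C1 * ((q : ℝ) * (1 + |t|)) ^ η * ((N:ℝ) + 1) ^ (a + η + 2 * η) * J := by
    refine (norm_integral_le_of_norm_le ((int_pow hη).const_mul
      (18 * C1 * ((q : ℝ) * (1 + |t|)) ^ η * ((N:ℝ) + 1) ^ (a + η + 2 * η))) ?_).trans (le_of_eq ?_)
    · filter_upwards with y
      have := hgb (((a + η : ℝ) : ℂ) + (y : ℂ) * I) (by simp) (by simpa using hac)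
      simpa using this
    · rw [integral_const_mul, hJ]
  rw [hS, norm_mul] at h1
  have h2 : (1 : ℝ) ≤ ‖(2 * (Real.pi : ℂ))‖ := by
    rw [norm_mul, Complex.norm_real, Real.norm_of_nonneg Real.pi_pos.le]
    have := Real.pi_gt_three
    norm_num
    linarith
  have h3 : ‖tw mu χ t N‖ ≤ 18 * C1 * ((q : ℝ) * (1 + |t|)) ^ η * ((N:ℝ) + 1) ^ (a + η + 2 * η) * J := by
    have h4 : 0 ≤ ‖tw mu χ t N‖ := norm_nonneg _
    nlinarith
  have h5 : ((N:ℝ) + 1) ^ (a + η + 2 * η) ≤ 4 * (N : ℝ) ^ (a + 3 * η) := by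
    have f1 : a + η + 2 * η = a + 3 * η := by ring
    rw [f1]
    calc ((N:ℝ) + 1) ^ (a + 3 * η) ≤ (2 * (N : ℝ)) ^ (a + 3 * η) :=
          Real.rpow_le_rpow (by positivity) (by linarith) (by linarith)
      _ = 2 ^ (a + 3 * η) * (N : ℝ) ^ (a + 3 * η) := Real.mul_rpow (by norm_num) (by positivity)
      _ ≤ 4 * (N : ℝ) ^ (a + 3 * η) := by
        apply mul_le_mul_of_nonneg_right _ (by positivity)
        calc (2 : ℝ) ^ (a + 3 * η) ≤ 2 ^ (2 : ℝ) := Real.rpow_le_rpow_of_exponent_le (by norm_num) (by linarith)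
          _ = 4 := by norm_num
  calc ‖tw mu χ t N‖ ≤ 18 * C1 * ((q : ℝ) * (1 + |t|)) ^ η * ((N:ℝ) + 1) ^ (a + η + 2 * η) * J := h3
    _ ≤ 18 * C1 * ((q : ℝ) * (1 + |t|)) ^ η * (4 * (N : ℝ) ^ (a + 3 * η)) * (J + 1) := by
      gcongr
      linarith
    _ = _ := by ring

/-- The trivial bound. -/
lemma tw_trivial {q : ℕ} (χ : DirichletCharacter ℂ q) (t : ℝ) (N : ℕ) : ‖tw mu χ t N‖ ≤ N := by
  unfold tw
  refine (norm_sum_le _ _).trans ?_
  have h : ∀ m ∈ Finset.Icc 1 N, ‖((mu m : ℤ) : ℂ) * χ (m : ZMod q) * npi m t‖ ≤ 1 := by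
    intro m hm
    have hm1 : 0 < m := (Finset.mem_Icc.1 hm).1
    have e1 : ‖npi m t‖ = 1 := by
      unfold npi
      rw [Complex.norm_natCast_cpow_of_pos hm1]
      simp
    rw [norm_mul, e1, mul_one]
    exact norm_mc_le χ m
  refine (Finset.sum_le_sum h).trans ?_
  simp

/-- **Twisted sums of the Moebius function in a half plane without zeros.** -/
theorem tw_of_zf {a : ℝ} (ha : 1 / 2 ≤ a) (hZ : ZF a) : Tw a := by
  intro ε hε
  rcases lt_or_ge a 1 with ha1 | ha1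
  · obtain ⟨η, hη⟩ : ∃ η : ℝ, η = min (ε / 3) (1 / 4) := ⟨_, rfl⟩
    have hη0 : 0 < η := by rw [hη]; positivity
    have hη1 : η ≤ 1 / 4 := by rw [hη]; exact min_le_right _ _
    have hη2 : 3 * η ≤ ε := by
      have : η ≤ ε / 3 := by rw [hη]; exact min_le_left _ _
      linarith
    obtain ⟨C, hC, hh⟩ := tw_aux ha ha1 hη0 hη1 hZ
    refine ⟨C, fun q χ t N hq hN => ?_⟩
    have : NeZero q := ⟨by omega⟩
    have h1 := hh q χ t N hN
    have hq1 : (1 : ℝ) ≤ q := by exact_mod_cast hq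
    have hN1 : (1 : ℝ) ≤ N := by exact_mod_cast hN
    have ht : 0 ≤ |t| := abs_nonneg t
    have hb : 1 ≤ (q : ℝ) * (1 + |t|) := by nlinarith
    have h2 : ((q : ℝ) * (1 + |t|)) ^ η ≤ ((q : ℝ) * (1 + |t|)) ^ ε :=
      Real.rpow_le_rpow_of_exponent_le hb (by linarith)
    have h3 : (N : ℝ) ^ (a + 3 * η) ≤ (N : ℝ) ^ ε * (N : ℝ) ^ a := by
      rw [← Real.rpow_add (by linarith)]
      exact Real.rpow_le_rpow_of_exponent_le hN1 (by linarith)
    calc ‖tw mu χ t N‖ ≤ C * ((q : ℝ) * (1 + |t|)) ^ η * (N : ℝ) ^ (a + 3 * η) := h1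
      _ ≤ C * ((q : ℝ) * (1 + |t|)) ^ ε * ((N : ℝ) ^ ε * (N : ℝ) ^ a) := by gcongr
      _ = C * (((q : ℝ) * (1 + |t|)) ^ ε * (N : ℝ) ^ ε) * (N : ℝ) ^ a := by ring
      _ = C * ((q : ℝ) * (1 + |t|) * N) ^ ε * (N : ℝ) ^ a := by
        rw [← Real.mul_rpow (by positivity) (by positivity)]
  · refine ⟨1, fun q χ t N hq hN => ?_⟩
    have h1 := tw_trivial χ t N
    have hq1 : (1 : ℝ) ≤ q := by exact_mod_cast hq
    have hN1 : (1 : ℝ) ≤ N := by exact_mod_cast hN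
    have ht : 0 ≤ |t| := abs_nonneg t
    have hb : 1 ≤ (q : ℝ) * (1 + |t|) * N := by
      have : 1 ≤ (q : ℝ) * (1 + |t|) := by nlinarith
      nlinarith
    have h2 : (1 : ℝ) ≤ ((q : ℝ) * (1 + |t|) * N) ^ ε := Real.one_le_rpow hb hε.le
    have h3 : (N : ℝ) ≤ (N : ℝ) ^ a := by
      calc (N : ℝ) = (N : ℝ) ^ (1 : ℝ) := (Real.rpow_one _).symm
        _ ≤ _ := Real.rpow_le_rpow_of_exponent_le hN1 ha1
    have h4 : 0 ≤ (N : ℝ) ^ a := by positivity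
    calc ‖tw mu χ t N‖ ≤ N := h1
      _ ≤ (N : ℝ) ^ a := h3
      _ = 1 * 1 * (N : ℝ) ^ a := by ring
      _ ≤ 1 * ((q : ℝ) * (1 + |t|) * N) ^ ε * (N : ℝ) ^ a := by gcongr

end Pool.Agent.Helper9.TWZ
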